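import Pool.Agent.J6H72.ZM.Led
import Pool.Agent.N879.PZ.Tw
import Pool.Agent.N879.PZ.M4l
import Pool.Agent.N879.PZ.Afx
import Pool.Agent.N879.PZ.Crd
import Pool.Agent.N879.PZ.Lt

set_option autoImplicit false

/-! The second moment of zeta, `∫_0^{2T} |ζ(1/2+iu)|² du ≤ C T log T`. -/

namespace Pool.Agent.J6H72.ZM

open Complex Filter Topology MeasureTheory Set
open Pool.Agent.Y969.GP (ff V V1 ht lam PS FR co cr PX mk mB)
open Pool.Agent.Y969.SM (ff_cont)
open Pool.Agent.N879.PZ Pool.Agent.N879.PZ.Smlaux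

noncomputable section

theorem a_TW : S_TW := t_TW t_AFX t_CRD
theorem a_M4L : S_M4L := t_M4L t_AFX t_CRD t_LT

/-- powers of the logarithm against a small power -/
theorem log_pow_le (A : ℕ) : ∃ K : ℝ, 0 < K ∧ ∀ x : ℝ, 3 ≤ x → Real.log x ^ A ≤ K * x ^ (1 / 16 : ℝ) := by
  have h1 := isLittleO_log_rpow_rpow_atTop (A : ℝ) (show (0:ℝ) < 1 / 16 by norm_num)
  have h2 := h1.def one_pos
  obtain ⟨x₀, hx₀⟩ := eventually_atTop.1 (h2.and (eventually_ge_atTop 3))
  set y := max x₀ 3 with hy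
  refine ⟨Real.log y ^ A + 1, ?_, fun x hx => ?_⟩
  · have : 0 ≤ Real.log y ^ A := pow_nonneg (Real.log_nonneg (by
      have := le_max_right x₀ (3:ℝ)
      linarith)) A
    linarith
  · have hx1 : 1 ≤ x ^ (1 / 16 : ℝ) := Real.one_le_rpow (by linarith) (by norm_num)
    have hly : 0 ≤ Real.log y ^ A := pow_nonneg (Real.log_nonneg (by
      have := le_max_right x₀ (3:ℝ)
      linarith)) A
    have hlx : 0 ≤ Real.log x := Real.log_nonneg (by linarith)
    by_cases h : x ≤ y
    · have h3 : Real.log x ^ A ≤ Real.log y ^ A :=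
        pow_le_pow_left₀ hlx (Real.log_le_log (by linarith) h) A
      nlinarith
    · have h4 := (hx₀ x (by
        have := le_max_left x₀ (3:ℝ)
        linarith)).1
      rw [one_mul, Real.norm_of_nonneg (Real.rpow_nonneg hlx _),
        Real.norm_of_nonneg (by positivity), Real.rpow_natCast] at h4
      nlinarith

theorem a_SM : ∃ C : ℝ, 0 < C ∧ ∀ T : ℝ, 2 ≤ T → ∫ u in (0:ℝ)..(2 * T), ff u ≤ C * T * Real.log T := by
  obtain ⟨K1, hK1, h1⟩ := sm_a a_TW
  obtain ⟨C, A, hC, h2⟩ := a_M4L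
  obtain ⟨K2, hK2, h3⟩ := log_pow_le A
  refine ⟨4 * K1 + 4 + 32 * C * K2, by positivity, fun T hT => ?_⟩
  set T' := 2 * T with hT'
  have hT4 : 4 ≤ T' := by linarith
  have hT1 : (1:ℝ) ≤ T' := by linarith
  set a := T' ^ (7 / 8 : ℝ) with ha
  have ha1 : 1 ≤ a := Real.one_le_rpow hT1 (by norm_num)
  have haT : a ≤ T' := by
    calc T' ^ (7 / 8 : ℝ) ≤ T' ^ (1 : ℝ) := Real.rpow_le_rpow_of_exponent_le hT1 (by norm_num)
      _ = T' := Real.rpow_one T'
  have hl2 : Real.log 2 ≤ Real.log T := Real.log_le_log (by norm_num) hT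
  have hlog2 : (1 / 2 : ℝ) < Real.log 2 := by
    have := Real.log_two_gt_d9
    linarith
  have hlT : 1 / 2 ≤ Real.log T := by linarith
  have hint : ∀ x y : ℝ, IntervalIntegrable ff volume x y := fun x y => ff_cont.intervalIntegrable x y
  rw [← intervalIntegral.integral_add_adjacent_intervals (hint 0 a) (hint a T')]
  have p1 : ∫ u in a..T', ff u ≤ 4 * K1 * (T * Real.log T) := by
    have h4 := h1 T' a (by linarith) le_rfl haT
    rw [intervalIntegral.integral_of_le haT, ← integral_Icc_eq_integral_Ioc]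
    refine h4.trans ?_
    have h5 : Real.log T' ≤ 2 * Real.log T := by
      rw [hT', Real.log_mul (by norm_num) (by linarith)]
      linarith
    calc K1 * (T' * Real.log T') ≤ K1 * (T' * (2 * Real.log T)) := by
          gcongr
      _ = 4 * K1 * (T * Real.log T) := by rw [hT']; ring
  have p2 : ∫ u in (0:ℝ)..a, ff u ≤ T' + C * (4 * T') * (K2 * 2) := by
    have h4 : ∫ u in (0:ℝ)..a, ff u ≤ ∫ u in (0:ℝ)..a, (1 + ff u ^ 2) := by
      refine intervalIntegral.integral_mono_on (by linarith) (hint 0 a)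
        ((continuous_const.add (ff_cont.pow 2)).intervalIntegrable _ _) fun u _ => ?_
      nlinarith [sq_nonneg (ff u - 1), ff_nonneg u]
    refine h4.trans ?_
    have h5' : ∫ u in (0:ℝ)..a, (1 + ff u ^ 2) =
        (∫ _u in (0:ℝ)..a, (1:ℝ)) + ∫ u in (0:ℝ)..a, ff u ^ 2 :=
      intervalIntegral.integral_add (f := fun _ => (1:ℝ)) (g := fun u => ff u ^ 2)
        (continuous_const.intervalIntegrable _ _) ((ff_cont.pow 2).intervalIntegrable _ _)
    rw [h5', intervalIntegral.integral_const, sub_zero, smul_eq_mul, mul_one]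
    refine add_le_add haT ?_
    set b := max a 3 with hb
    have hb3 : 3 ≤ b := le_max_right _ _
    have h5 : ∫ t in (0:ℝ)..a, ff t ^ 2 ≤ ∫ t in (0:ℝ)..b, ff t ^ 2 := by
      refine intervalIntegral.integral_mono_interval le_rfl (by linarith) (le_max_left _ _) ?_ ?_
      · exact Eventually.of_forall fun t => sq_nonneg _
      · exact (ff_cont.pow 2).intervalIntegrable _ _
    refine h5.trans ((h2 b hb3).trans ?_)
    have h6 : b ≤ 3 * a := max_le (by linarith) (by linarith)
    have h7 := h3 b hb3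
    have hbT : b ≤ T' := max_le haT (by linarith)
    have h8 : b ^ (1 / 16 : ℝ) ≤ T' ^ (1 / 16 : ℝ) :=
      Real.rpow_le_rpow (by linarith) hbT (by norm_num)
    have h9 : a * T' ^ (1 / 16 : ℝ) ≤ T' := by
      rw [ha, ← Real.rpow_add (by linarith)]
      calc T' ^ (7 / 8 + 1 / 16 : ℝ) ≤ T' ^ (1 : ℝ) :=
            Real.rpow_le_rpow_of_exponent_le hT1 (by norm_num)
        _ = T' := Real.rpow_one T'
    have h10 : 0 ≤ Real.log b ^ A := pow_nonneg (Real.log_nonneg (by linarith)) A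
    have h11 : 0 ≤ T' ^ (1 / 16 : ℝ) := by positivity
    calc C * b * Real.log b ^ A ≤ C * (3 * a) * (K2 * T' ^ (1 / 16 : ℝ)) := by
          gcongr
          exact h7.trans (mul_le_mul_of_nonneg_left h8 hK2.le)
      _ = 3 * C * K2 * (a * T' ^ (1 / 16 : ℝ)) := by ring
      _ ≤ 3 * C * K2 * T' := by gcongr
      _ ≤ C * (4 * T') * (K2 * 2) := by nlinarith [mul_pos (mul_pos hC hK2) (show 0 < T' by linarith)]
  have q1 : T' ≤ 4 * (T * Real.log T) := by rw [hT']; nlinarith
  have q2 : C * (4 * T') * (K2 * 2) ≤ 16 * C * K2 * (2 * (T * Real.log T)) := by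
    have : C * (4 * T') * (K2 * 2) = 16 * C * K2 * T := by rw [hT']; ring
    rw [this]
    have h12 : T ≤ 2 * (T * Real.log T) := by nlinarith
    exact mul_le_mul_of_nonneg_left h12 (by positivity)
  nlinarith [mul_pos (mul_pos hC hK2) (show 0 < T * Real.log T by positivity)]

end

end Pool.Agent.J6H72.ZM
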