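import Pool.Agent.J6H72.ZM.GSFin
import Pool.Agent.TH612.GS.GF1
import Pool.Agent.TH612.GS.GF3
import Pool.Agent.TH612.GS.GF4
import Pool.Agent.TH113.GF.A5
import Pool.Agent.TH236.GF.OQ
import Pool.Agent.TH263.GF.A2
import Pool.Agent.TH321.GF.AQ
import Pool.Agent.TH406.GF.REPA
import Pool.Agent.TH445.GF.DS
import Pool.Agent.TH479.GF.HD
import Pool.Agent.TH576.GF.TL
import Pool.Agent.TH637.GF.NA
import Pool.Agent.TH738.GF.TMV
import Pool.Agent.TH740.GF.GL3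
import Pool.Agent.TH740.GF.VQ
import Pool.Agent.TH751.GF.MVB
import Pool.Agent.TH778.GF.ST
import Pool.Agent.TH914.GF.TW
import Pool.Agent.TH928.GF.ZN

set_option autoImplicit false

/-! Assembly of the project GF of the starting files. -/

namespace Pool.Agent.J6H72.ZM

open MeasureTheory Pool.Agent.TH612.GS

theorem f_main (k : ℕ) (hk : k ≤ 4) : ∃ δ : ℝ, 0 < δ ∧ ∀ α : Fin k → ℝ,
    ∃ T₀ : ℝ, ∀ T : ℝ, T₀ ≤ T → ∀ S : ℝ, 0 ≤ S → S ≤ T →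
      mP (Fin k) T (BadD α T S (T ^ (1 - δ))) ≤ ENNReal.ofReal (T ^ (k - δ : ℝ)) := by
  have hMV := Pool.Agent.TH928.GS.t_MV
  have hONE := Pool.Agent.TH811.GS.t_ONE hMV
  have hA2 := Pool.Agent.TH263.GF.t_A2
  have hMVB := Pool.Agent.TH751.GF.t_MVB
  have hW : S_W := t_W Pool.Agent.TH406.GF.t_REPA (Pool.Agent.TH236.GF.t_OQ Pool.Agent.TH321.GF.t_AQ)
    g_SM (Pool.Agent.TH740.GF.t_VQ hMV) hA2 (Pool.Agent.TH738.GF.t_TMV hMV)
    (Pool.Agent.TH576.GF.t_TL hA2 hMVB)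
    (Pool.Agent.TH914.GF.t_TW Pool.Agent.TH778.GF.t_ST Pool.Agent.TH445.GF.t_DS)
    Pool.Agent.TH479.GF.t_HD
  exact mainD hW (Pool.Agent.TH113.GF.t_A5 Pool.Agent.TH757.GS.t_CONT (Pool.Agent.TH740.GF.t_GL3 hMV))
    (Pool.Agent.TH928.GF.t_ZN hONE) Pool.Agent.TH637.GF.t_NA k hk

end Pool.Agent.J6H72.ZM
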