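import Pool.Agent.J6H72.ZM.Sm
import Pool.Agent.TH612.GS.Asm6
import Pool.Agent.TH612.GS.Inv
import Pool.Agent.TH612.GS.Z
import Pool.Agent.TH228.GS.ZM
import Pool.Agent.TH264.GS.AP
import Pool.Agent.TH347.GS.A4
import Pool.Agent.TH367.GS.SS
import Pool.Agent.TH406.GS.CHI
import Pool.Agent.TH448.GS.FL2
import Pool.Agent.TH503.GS.MVD
import Pool.Agent.TH509.GS.DIAG
import Pool.Agent.TH521.GS.Rep
import Pool.Agent.TH753.GS.GL2
import Pool.Agent.TH757.GS.CONT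
import Pool.Agent.TH767.GS.NS
import Pool.Agent.TH805.GS.SW
import Pool.Agent.TH811.GS.One
import Pool.Agent.TH889.GS.OP
import Pool.Agent.TH928.GS.MV

set_option autoImplicit false

/-! Assembly of the project GS of the starting files. -/

namespace Pool.Agent.J6H72.ZM

open Complex Filter Topology MeasureTheory Set
open Pool.Agent.TH612.GS

noncomputable section

theorem g_SM : Pool.Agent.TH612.GS.S_SM := by
  obtain ⟨C, hC, h⟩ := a_SM
  refine ⟨C, 2, hC, le_rfl, fun T hT => ?_⟩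
  refine le_trans (le_of_eq ?_) (h T hT)
  refine intervalIntegral.integral_congr fun u _ => ?_
  simp only [z, Pool.Agent.Y969.GP.ff]

theorem g_main (k : ℕ) : ∃ δ : ℝ, 0 < δ ∧ ∃ T₀ : ℝ, ∀ T : ℝ, T₀ ≤ T →
    mP (Fin k ⊕ Fin k) T (Bad k T (T ^ (1 - δ))) ≤ ENNReal.ofReal (T ^ (2 * k - δ : ℝ)) := by
  have hMV := Pool.Agent.TH928.GS.t_MV
  have hMVD := Pool.Agent.TH503.GS.t_MVD hMV
  have hOP := Pool.Agent.TH889.GS.t_OP hMV hMVD Pool.Agent.TH264.GS.t_AP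
  have hSP := Pool.Agent.TH503.GS.t_SP hMV
  have hFL := Pool.Agent.TH448.GS.t_FL2
  have hONE := Pool.Agent.TH811.GS.t_ONE hMV
  exact main (t_Z1 Pool.Agent.TH521.GS.t_REP hOP g_SM hSP) (t_Z2 Pool.Agent.TH521.GS.t_REP2 g_SM)
    (Pool.Agent.TH367.GS.t_SS hFL)
    (Pool.Agent.TH347.GS.t_A4 Pool.Agent.TH757.GS.t_CONT (Pool.Agent.TH753.GS.t_GL2 hFL))
    (Pool.Agent.TH228.GS.t_ZM hONE) (Pool.Agent.TH805.GS.t_SW Pool.Agent.TH406.GS.t_CHI) hONE
    Pool.Agent.TH767.GS.t_NS Pool.Agent.TH509.GS.t_DIAG t_INV k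

end

end Pool.Agent.J6H72.ZM
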