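import Pool.Agent.N879.PZ.Sml

set_option autoImplicit false

/-! The leading term of the model of `|ζ(1/2+iu)|²` (statement `S_LED` of the starting files), and the
second moment of zeta, from the twisted second moment. -/

namespace Pool.Agent.J6H72.ZM

open Complex Filter Topology MeasureTheory Set
open Pool.Agent.Y969.GP (ff V V1 ht lam PS FR co cr PX mk mB)
open Pool.Agent.Y969.SM (ff_cont)
open Pool.Agent.N879.PZ Pool.Agent.N879.PZ.Smlaux

noncomputable section

/-- the factors of the telescoping sum -/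
def tl {E : Type} {n : ℕ} (f d g : E) (i j : Fin n) : E := if j < i then f else if j = i then d else g

theorem telesc (n : ℕ) (f g : Fin n → ℂ) : (∏ j, f j) - ∏ j, g j =
    ∑ i, ∏ j, tl (f j) (f j - g j) (g j) i j := by
  induction n with
  | zero => simp
  | succ n ih =>
    rw [Fin.prod_univ_succ, Fin.prod_univ_succ (f := g), Fin.sum_univ_succ]
    have h0 : ∏ j : Fin (n + 1), tl (f j) (f j - g j) (g j) 0 j =
        (f 0 - g 0) * ∏ j : Fin n, g j.succ := by
      rw [Fin.prod_univ_succ]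
      simp [tl]
    have h1 : ∀ i : Fin n, ∏ j : Fin (n + 1), tl (f j) (f j - g j) (g j) i.succ j =
        f 0 * ∏ j : Fin n, tl (f j.succ) (f j.succ - g j.succ) (g j.succ) i j := by
      intro i
      rw [Fin.prod_univ_succ]
      congr 1
      refine Finset.prod_congr rfl fun j _ => ?_
      simp [tl, Fin.succ_lt_succ_iff]
    rw [h0]
    simp only [h1]
    rw [← Finset.mul_sum, ← ih (fun j => f j.succ) fun j => g j.succ]
    ring

/-- the second moment over `[a,T]` -/
theorem sm_a (h : S_TW) : ∃ K : ℝ, 0 < K ∧ ∀ T a : ℝ, 3 ≤ T → T ^ (7 / 8 : ℝ) ≤ a → a ≤ T →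
    ∫ t in Icc a T, ff t ≤ K * (T * Real.log T) := by
  obtain ⟨C, hC, hTW⟩ := h
  refine ⟨1 + 3 * C, by positivity, fun T a hT ha haT => ?_⟩
  have hL := log_one hT
  have ha1 := one_le_a hT ha
  have hT1 : (1:ℝ) ≤ T := by linarith
  have h1 := hTW T a (1, 1) hT ha haT le_rfl le_rfl (by norm_num) (by
    have : (1:ℝ) ≤ T ^ (1 / 16 : ℝ) := Real.one_le_rpow hT1 (by norm_num)
    simpa [Pool.Agent.Y969.GP.ht] using this)
  have e1 : ∀ t : ℝ, ee t (1, 1) = 1 := fun t => by
    simp [ee, Pool.Agent.Y969.GP.lam]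
  have e2 : ht (1, 1) = 1 := by simp [Pool.Agent.Y969.GP.ht]
  simp only [e1, e2, mul_one, Real.log_one, Real.sqrt_one, inv_one, add_zero] at h1
  have e3 : ∫ t in a..T, (ff t : ℂ) = ((∫ t in Icc a T, ff t : ℝ) : ℂ) := by
    rw [intervalIntegral.integral_ofReal, intervalIntegral.integral_of_le haT,
      integral_Icc_eq_integral_Ioc]
  rw [e3, ← Complex.ofReal_sub, Complex.norm_real, Real.norm_eq_abs] at h1
  have h2 := (abs_le.1 h1).2
  have h3 : T ^ (15 / 16 : ℝ) ≤ T := by
    calc T ^ (15 / 16 : ℝ) ≤ T ^ (1 : ℝ) := Real.rpow_le_rpow_of_exponent_le hT1 (by norm_num)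
      _ = T := Real.rpow_one T
  have h4 : a / T ≤ 1 := (div_le_one (by linarith)).2 haT
  have h5 : a / T * Real.log T ≤ Real.log T := by nlinarith
  have h6 : C * T * (1 + a / T * Real.log T) ≤ C * T * (2 * Real.log T) := by
    refine mul_le_mul_of_nonneg_left ?_ (by positivity)
    linarith
  have h7 : C * T ^ (15 / 16 : ℝ) ≤ C * (T * Real.log T) := by
    refine mul_le_mul_of_nonneg_left ?_ hC.le
    nlinarith
  nlinarith

theorem P1_cont (N : ℕ) : Continuous (P1 N) := by
  unfold P1 ee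
  exact continuous_finsetSum _ fun p _ => by fun_prop

theorem t_LED (h1 : S_FUB) (h2 : S_TW) (h3 : S_WIN) : S_LED := by
  obtain ⟨K, hK, hSM⟩ := sm_a h2
  obtain ⟨C, hC, hWIN⟩ := h3
  intro n
  refine ⟨(n + 1) * K * (√C + 1) ^ n, by positivity, ?_⟩
  intro T U a N hP
  have hWN := hWIN T U a N hP
  obtain ⟨hT, hU, hUT, ha, haT, hN1, hNT, -⟩ := hP
  have ha1 := one_le_a hT ha
  have hL := log_one hT
  have hU0 : 0 < U := by linarith
  have hT1 : (1:ℝ) ≤ T := by linarith
  have hNL0 : 0 ≤ Real.log N := Real.log_natCast_nonneg N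
  set L := Real.log T with hLdef
  set B := 1 + Real.log N with hB
  have hB1 : 1 ≤ B := by linarith
  set R := 1 + Real.log (T / a) with hR
  have hR1 : 1 ≤ R := by
    have : 0 ≤ Real.log (T / a) := Real.log_nonneg ((one_le_div (by linarith)).2 haT)
    linarith
  set al : ℝ := √C * B ^ 2 * L with hal
  set be : ℝ := √C * B ^ 2 * R with hbe
  have hal0 : 0 ≤ al := by positivity
  have hbe0 : 0 ≤ be := by positivity
  have hsC := Real.sq_sqrt hC.le
  have w1 : ∀ t ∈ Icc a T, ∫ c in (0:ℝ)..U, ‖DN N (t + c)‖ ≤ U * al := fun t ht => by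
    refine cs_int hU0.le (f := fun c => ‖DN N (t + c)‖)
      ((DN_cont N).comp (by fun_prop)).norm hal0 ((hWN t ht.1 ht.2).2.1.trans (le_of_eq ?_))
    rw [hal]
    calc C * U * B ^ 4 * L ^ 2 = (√C) ^ 2 * U * B ^ 4 * L ^ 2 := by rw [hsC]
      _ = U * (√C * B ^ 2 * L) ^ 2 := by ring
  have w2 : ∀ t ∈ Icc a T, ∫ c in (0:ℝ)..U, ‖(L : ℂ) * P1 N (t + c)‖ ≤ U * al := fun t ht => by
    refine cs_int hU0.le (f := fun c => ‖(L : ℂ) * P1 N (t + c)‖)
      (continuous_const.mul ((P1_cont N).comp (by fun_prop))).norm hal0 ?_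
    have e : ∀ c : ℝ, ‖(L : ℂ) * P1 N (t + c)‖ ^ 2 = L ^ 2 * ‖P1 N (t + c)‖ ^ 2 := fun c => by
      rw [norm_mul, Complex.norm_real, Real.norm_of_nonneg (by linarith), mul_pow]
    simp only [e]
    rw [intervalIntegral.integral_const_mul]
    calc L ^ 2 * ∫ c in (0:ℝ)..U, ‖P1 N (t + c)‖ ^ 2 ≤ L ^ 2 * (C * U * B ^ 2) := by
          gcongr
          exact (hWN t ht.1 ht.2).1
      _ ≤ L ^ 2 * (C * U * B ^ 4) := by
          gcongr
          norm_num
      _ = U * ((√C) ^ 2 * B ^ 4 * L ^ 2) := by rw [hsC]; ring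
      _ = U * al ^ 2 := by rw [hal]; ring
  have w3 : ∀ t ∈ Icc a T, ∫ c in (0:ℝ)..U, ‖DN N (t + c) - (L : ℂ) * P1 N (t + c)‖ ≤ U * be :=
    fun t ht => by
    refine cs_int hU0.le (f := fun c => ‖DN N (t + c) - (L : ℂ) * P1 N (t + c)‖)
      (((DN_cont N).comp (by fun_prop)).sub
        (continuous_const.mul ((P1_cont N).comp (by fun_prop)))).norm hbe0
      ((hWN t ht.1 ht.2).2.2.trans (le_of_eq ?_))
    rw [hbe]
    calc C * U * B ^ 4 * R ^ 2 = (√C) ^ 2 * U * B ^ 4 * R ^ 2 := by rw [hsC]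
      _ = U * (√C * B ^ 2 * R) ^ 2 := by ring
  -- the functions
  let f : ℝ → ℂ := DN N
  let g : ℝ → ℂ := fun u => (L : ℂ) * P1 N u
  have hfc : Continuous f := DN_cont N
  have hgc : Continuous g := continuous_const.mul (P1_cont N)
  let G : Fin n → Fin n → ℝ → ℂ := fun i j => tl f (fun u => f u - g u) g i j
  have hGc : ∀ i j, Continuous (G i j) := by
    intro i j
    show Continuous (tl f (fun u => f u - g u) g i j)
    unfold tl
    split_ifs
    · exact hfc
    · exact hfc.sub hgc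
    · exact hgc
  have hsplit : ∀ (c : Fin n → ℝ) (t : ℝ), (∏ j, f (t + c j)) - ∏ j, g (t + c j) =
      ∑ i, ∏ j, G i j (t + c j) := by
    intro c t
    rw [telesc]
    refine Finset.sum_congr rfl fun i _ => Finset.prod_congr rfl fun j _ => ?_
    show tl _ _ _ i j = (tl f (fun u => f u - g u) g i j) (t + c j)
    unfold tl
    split_ifs <;> rfl
  have hCT : ∀ i, Continuous fun c : Fin n → ℝ => ∫ t in Icc a T, (ff t : ℂ) * ∏ j, G i j (t + c j) := by
    intro i
    exact continuous_parametric_integral_of_continuous (by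
      have : Continuous fun p : (Fin n → ℝ) × ℝ => (ff p.2 : ℂ) * ∏ j, G i j (p.2 + p.1 j) := by
        refine (Complex.continuous_ofReal.comp (ff_cont.comp continuous_snd)).mul ?_
        exact continuous_finsetProd _ fun j _ => (hGc i j).comp (by fun_prop)
      exact this) isCompact_Icc
  have hfin : IsFiniteMeasure (mB n 0 U) := by
    unfold mB
    infer_instance
  have hint : ∀ i, Integrable (fun c : Fin n → ℝ =>
      ‖∫ t in Icc a T, (ff t : ℂ) * ∏ j, G i j (t + c j)‖) (mB n 0 U) := by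
    intro i
    have h4 : mB n 0 U = volume.restrict (Set.pi univ fun _ => Icc 0 U) := by
      unfold mB
      rw [← Measure.restrict_pi_pi]
      rfl
    rw [h4]
    exact ((hCT i).norm.continuousOn).integrableOn_compact (isCompact_univ_pi fun _ => isCompact_Icc)
  have step : ∀ c : Fin n → ℝ, ‖∫ t in Icc a T, (ff t : ℂ) * (∏ j : Fin n, DN N (t + c j) -
      ∏ j : Fin n, ((L : ℂ) * P1 N (t + c j)))‖ ≤
      ∑ i, ‖∫ t in Icc a T, (ff t : ℂ) * ∏ j, G i j (t + c j)‖ := by
    intro c
    have e : (∫ t in Icc a T, (ff t : ℂ) * (∏ j : Fin n, DN N (t + c j) -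
        ∏ j : Fin n, ((L : ℂ) * P1 N (t + c j)))) =
        ∑ i, ∫ t in Icc a T, (ff t : ℂ) * ∏ j, G i j (t + c j) := by
      rw [← integral_finsetSum]
      · refine integral_congr_ae (Eventually.of_forall fun t => ?_)
        have := hsplit c t
        show (ff t : ℂ) * ((∏ j, f (t + c j)) - ∏ j, g (t + c j)) = _
        rw [this, Finset.mul_sum]
      · intro i _
        refine Continuous.integrableOn_Icc ?_
        refine (Complex.continuous_ofReal.comp ff_cont).mul ?_
        exact continuous_finsetProd _ fun j _ => (hGc i j).comp (by fun_prop)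
    rw [e]
    exact norm_sum_le _ _
  have hone : ∀ i : Fin n, ∫ c, ‖∫ t in Icc a T, (ff t : ℂ) * ∏ j, G i j (t + c j)‖ ∂(mB n 0 U) ≤
      K * (T * L) * (U ^ n * (al ^ (n - 1) * be)) := by
    intro i
    refine (h1 n a T U (Icc a T) (fun t => (ff t : ℂ)) (G i) haT hU0 measurableSet_Icc subset_rfl
      (ff_Wb a T) (hGc i)).trans ?_
    simp only [nff]
    have hb : ∀ t ∈ Icc a T, ff t * ∏ j, ∫ c in (0:ℝ)..U, ‖G i j (t + c)‖ ≤
        ff t * (U ^ n * (al ^ (n - 1) * be)) := by
      intro t ht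
      refine mul_le_mul_of_nonneg_left ?_ (ff_nonneg t)
      have hp : ∏ j, ∫ c in (0:ℝ)..U, ‖G i j (t + c)‖ ≤ ∏ j, (U * if j = i then be else al) := by
        refine Finset.prod_le_prod (fun j _ => ?_) fun j _ => ?_
        · exact intervalIntegral.integral_nonneg hU0.le fun c _ => norm_nonneg _
        · show ∫ c in (0:ℝ)..U, ‖(tl f (fun u => f u - g u) g i j) (t + c)‖ ≤ _
          unfold tl
          by_cases h5 : j < i
          · rw [if_pos h5, if_neg h5.ne]
            exact w1 t ht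
          · rw [if_neg h5]
            by_cases h6 : j = i
            · rw [if_pos h6, if_pos h6]
              exact w3 t ht
            · rw [if_neg h6, if_neg h6]
              exact w2 t ht
      refine hp.trans (le_of_eq ?_)
      rw [Finset.prod_mul_distrib, Finset.prod_const, Finset.card_univ, Fintype.card_fin]
      congr 1
      have e : (Finset.univ : Finset (Fin n)) = insert i (Finset.univ.erase i) := by
        rw [Finset.insert_erase (Finset.mem_univ i)]
      rw [← Finset.mul_prod_erase Finset.univ _ (Finset.mem_univ i), if_pos rfl]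
      have e2 : ∏ j ∈ Finset.univ.erase i, (if j = i then be else al) =
          ∏ j ∈ Finset.univ.erase i, al :=
        Finset.prod_congr rfl fun j hj => if_neg (Finset.ne_of_mem_erase hj)
      rw [e2, Finset.prod_const, Finset.card_erase_of_mem (Finset.mem_univ i), Finset.card_univ,
        Fintype.card_fin, mul_comm]
    have hcw : Continuous fun t : ℝ => ff t * ∏ j, ∫ c in (0:ℝ)..U, ‖G i j (t + c)‖ :=
      ff_cont.mul (continuous_finsetProd _ fun j _ => wcont (hGc i j) U)
    have hcc : Continuous fun t : ℝ => ff t * (U ^ n * (al ^ (n - 1) * be)) :=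
      ff_cont.mul continuous_const
    refine (setIntegral_mono_on (g := fun t : ℝ => ff t * (U ^ n * (al ^ (n - 1) * be)))
      hcw.integrableOn_Icc hcc.integrableOn_Icc measurableSet_Icc hb).trans ?_
    rw [integral_mul_const]
    exact mul_le_mul_of_nonneg_right (hSM T a hT ha haT) (by positivity)
  calc ∫ c, ‖∫ t in Icc a T, (ff t : ℂ) * (∏ j : Fin n, DN N (t + c j) -
        ∏ j : Fin n, ((L : ℂ) * P1 N (t + c j)))‖ ∂(mB n 0 U)
      ≤ ∫ c, ∑ i, ‖∫ t in Icc a T, (ff t : ℂ) * ∏ j, G i j (t + c j)‖ ∂(mB n 0 U) := by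
        refine integral_mono_of_nonneg (Eventually.of_forall fun c => norm_nonneg _)
          (integrable_finsetSum _ fun i _ => hint i) (Eventually.of_forall fun c => step c)
    _ = ∑ i, ∫ c, ‖∫ t in Icc a T, (ff t : ℂ) * ∏ j, G i j (t + c j)‖ ∂(mB n 0 U) :=
        integral_finsetSum _ fun i _ => hint i
    _ ≤ ∑ _i : Fin n, K * (T * L) * (U ^ n * (al ^ (n - 1) * be)) :=
        Finset.sum_le_sum fun i _ => hone i
    _ = n * (K * (T * L) * (U ^ n * (al ^ (n - 1) * be))) := by
        rw [Finset.sum_const, Finset.card_univ, Fintype.card_fin, nsmul_eq_mul]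
    _ ≤ (n + 1) * K * (√C + 1) ^ n * B ^ (2 * n) * R * L ^ n * T * U ^ n := by
        rcases Nat.eq_zero_or_pos n with hn | hn
        · subst hn
          have : 0 ≤ (((0:ℕ):ℝ) + 1) * K * (√C + 1) ^ 0 * B ^ (2 * 0) * R * L ^ 0 * T * U ^ 0 := by
            positivity
          simpa using this
        · obtain ⟨m, rfl⟩ : ∃ m, n = m + 1 := ⟨n - 1, by omega⟩
          have e : m + 1 - 1 = m := rfl
          rw [e, hal, hbe]
          have h7 : (√C) ^ (m + 1) ≤ (√C + 1) ^ (m + 1) :=
            pow_le_pow_left₀ (Real.sqrt_nonneg _) (by linarith) _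
          calc ((m + 1 : ℕ) : ℝ) * (K * (T * L) * (U ^ (m + 1) *
                ((√C * B ^ 2 * L) ^ m * (√C * B ^ 2 * R))))
              = ((m + 1 : ℕ) : ℝ) * (√C) ^ (m + 1) * (K * B ^ (2 * (m + 1)) * R * L ^ (m + 1) * T *
                U ^ (m + 1)) := by ring
            _ ≤ (((m + 1 : ℕ) : ℝ) + 1) * (√C + 1) ^ (m + 1) * (K * B ^ (2 * (m + 1)) * R *
                L ^ (m + 1) * T * U ^ (m + 1)) := by
                gcongr
                linarith
            _ = _ := by ring

end

end Pool.Agent.J6H72.ZM
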